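import Mathlib
import Pool.Agent.Lib_helper76.LD.Defs2

set_option autoImplicit false

namespace Pool.Agent.Lib_helper76.LD

open Finset

theorem c_rank_add {K : Type*} [Field K] {m n : ℕ} (A B : Matrix (Fin m) (Fin n) K) :
    (A + B).rank ≤ A.rank + B.rank := by
  unfold Matrix.rank
  rw [Matrix.mulVecLin_add]
  have h1 : LinearMap.range (A.mulVecLin + B.mulVecLin) ≤
      LinearMap.range A.mulVecLin ⊔ LinearMap.range B.mulVecLin := by
    rintro _ ⟨x, rfl⟩
    exact Submodule.add_mem_sup ⟨x, rfl⟩ ⟨x, rfl⟩
  exact (Submodule.finrank_mono h1).trans (Submodule.finrank_add_le_finrank_add_finrank _ _)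

theorem c_rank_sum {K : Type*} [Field K] {m n : ℕ} {α : Type*} (s : Finset α)
    (A : α → Matrix (Fin m) (Fin n) K) (r : ℕ) (h : ∀ t ∈ s, (A t).rank ≤ r) :
    (∑ t ∈ s, A t).rank ≤ s.card * r := by
  classical
  induction s using Finset.induction_on with
  | empty => simp
  | insert t s ht ih =>
    rw [Finset.sum_insert ht, Finset.card_insert_of_notMem ht]
    have h1 := ih fun u hu => h u (Finset.mem_insert_of_mem hu)
    have h2 := h t (Finset.mem_insert_self t s)
    calc (A t + ∑ x ∈ s, A x).rank ≤ (A t).rank + (∑ x ∈ s, A x).rank := c_rank_add _ _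
      _ ≤ r + s.card * r := add_le_add h2 h1
      _ = (s.card + 1) * r := by ring

theorem c_rank_smul {K : Type*} [Field K] {m n : ℕ} (c : K) (A : Matrix (Fin m) (Fin n) K) :
    (c • A).rank ≤ A.rank := by
  have h : c • A = (c • (1 : Matrix (Fin m) (Fin m) K)) * A := by
    rw [Matrix.smul_mul, Matrix.one_mul]
  rw [h]
  exact Matrix.rank_mul_le_right _ _

theorem c_rank_map {K F : Type*} [Field K] [Field F] (f : K →+* F) {m n : ℕ}
    (A : Matrix (Fin m) (Fin n) K) : (A.map f).rank ≤ A.rank := by
  classical
  set W := Submodule.span K (Set.range A.col) with hW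
  have hr : A.rank = Module.finrank K W := Matrix.rank_eq_finrank_span_cols A
  set b := Module.finBasis K W with hb
  set P : Matrix (Fin m) (Fin (Module.finrank K W)) K := Matrix.of fun i t => (b t : Fin m → K) i
    with hP
  have hcol : ∀ j, A.col j ∈ W := fun j => Submodule.subset_span ⟨j, rfl⟩
  set Q : Matrix (Fin (Module.finrank K W)) (Fin n) K :=
    Matrix.of fun t j => b.repr ⟨A.col j, hcol j⟩ t with hQ
  have hA : A = P * Q := by
    ext i j
    rw [Matrix.mul_apply]
    have h1 := b.sum_repr ⟨A.col j, hcol j⟩
    have h2 := congrArg (fun w : W => (w : Fin m → K) i) h1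
    simp only [AddSubmonoidClass.coe_finsetSum, Finset.sum_apply] at h2
    have h3 : (A.col j) i = A i j := rfl
    rw [← h3, ← h2]
    refine Finset.sum_congr rfl fun t _ => ?_
    rw [hP, hQ, Matrix.of_apply, Matrix.of_apply, mul_comm]
    rfl
  have h3 : A.map f = P.map f * Q.map f := by
    conv_lhs => rw [hA]
    exact Matrix.map_mul
  rw [h3, hr]
  calc (P.map f * Q.map f).rank ≤ (P.map f).rank := Matrix.rank_mul_le_left _ _
    _ ≤ Module.finrank K W := Matrix.rank_le_width _

theorem extF_coe_pr (F : Type) [Field F] [Algebra (ZMod 2) F] {ι : Type} [Fintype ι]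
    [DecidableEq ι] {n : ℕ} (T : MultilinearMap (ZMod 2) (fun _ : ι => Fin n → ZMod 2) (ZMod 2))
    (x : ι → Fin n → ZMod 2) :
    extF F T (fun j i => algebraMap (ZMod 2) F (x j i)) = algebraMap (ZMod 2) F (T x) := by
  have h1 : T x = ∑ r : ι → Fin n, (∏ j, x j (r j)) * T fun j => Pi.single (r j) 1 := by
    have h2 : x = fun j => ∑ i, x j i • (Pi.single i (1 : ZMod 2) : Fin n → ZMod 2) := by
      funext j
      ext l
      rw [Finset.sum_apply, Finset.sum_eq_single l]
      · simp
      · intro i _ hi
        simp [Ne.symm hi]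
      · simp
    conv_lhs => rw [h2]
    rw [MultilinearMap.map_sum]
    refine Finset.sum_congr rfl fun r _ => ?_
    rw [MultilinearMap.map_smul_univ, smul_eq_mul]
  rw [h1, map_sum]
  unfold extF
  rw [_root_.sum_apply]
  refine Finset.sum_congr rfl fun r _ => ?_
  rw [smul_apply, MultilinearMap.compLinearMap_apply,
    MultilinearMap.mkPiAlgebra_apply, map_mul, map_prod, smul_eq_mul, mul_comm]
  rfl

/-- the slice matrix -/
noncomputable def c_M {F : Type} [Field F] {ι : Type} [DecidableEq ι] {n : ℕ}
    (E : MultilinearMap F (fun _ : ι => Fin n → F) F) (a b : ι) (z : ι → Fin n → F) :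
    Matrix (Fin n) (Fin n) F :=
  Matrix.of fun i j => E (Function.update (Function.update z a (Pi.single i 1)) b (Pi.single j 1))

theorem c_M_sum {F : Type} [Field F] {ι : Type} [DecidableEq ι] {n : ℕ}
    (E : MultilinearMap F (fun _ : ι => Fin n → F) F) (a b c : ι) (hca : c ≠ a) (hcb : c ≠ b)
    (z : ι → Fin n → F) {k : ℕ} (e : Fin k → F) (v : Fin k → Fin n → F) :
    c_M E a b (Function.update z c (∑ t, e t • v t)) =
      ∑ t, e t • c_M E a b (Function.update z c (v t)) := by
  ext i j
  rw [Matrix.sum_apply]
  unfold c_M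
  simp only [Matrix.of_apply, Matrix.smul_apply]
  rw [Function.update_comm hca, Function.update_comm hcb, MultilinearMap.map_update_sum]
  refine Finset.sum_congr rfl fun t _ => ?_
  rw [MultilinearMap.map_update_smul, Function.update_comm hca, Function.update_comm hcb]

theorem c_rank_M (F : Type) [Field F] [Algebra (ZMod 2) F] [Module.Finite (ZMod 2) F]
    {ι : Type} [Fintype ι] [DecidableEq ι] {n : ℕ}
    (T : MultilinearMap (ZMod 2) (fun _ : ι => Fin n → ZMod 2) (ZMod 2)) (ρ : ℕ)
    (hρ : ∀ (z : ι → Fin n → ZMod 2) (a b : ι), a ≠ b →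
      (Matrix.of fun i j : Fin n => T (Function.update (Function.update z a (Pi.single i 1)) b
        (Pi.single j 1))).rank ≤ ρ) (a b : ι) (hab : a ≠ b) (J : Finset ι) :
    a ∉ J → b ∉ J → ∀ z : ι → Fin n → F,
      (∀ j, j ∉ J → j ≠ a → j ≠ b → ∃ w : Fin n → ZMod 2, z j = fun i => algebraMap (ZMod 2) F (w i)) →
      (c_M (extF F T) a b z).rank ≤ Module.finrank (ZMod 2) F ^ J.card * ρ := by
  classical
  induction J using Finset.induction_on with
  | empty =>
    intro _ _ z hz
    rw [Finset.card_empty, pow_zero, one_mul]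
    choose! w hw using fun j => hz j (by simp)
    set x : ι → Fin n → ZMod 2 := w with hx
    have h1 : c_M (extF F T) a b z = (Matrix.of fun i j : Fin n =>
        T (Function.update (Function.update x a (Pi.single i 1)) b (Pi.single j 1))).map
          (algebraMap (ZMod 2) F) := by
      ext i j
      unfold c_M
      rw [Matrix.of_apply, Matrix.map_apply, Matrix.of_apply, ← extF_coe_pr]
      congr 1
      funext l
      by_cases hlb : l = b
      · subst hlb
        rw [Function.update_self, Function.update_self]
        funext s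
        by_cases hs : s = j
        · subst hs; simp
        · simp [hs]
      · by_cases hla : l = a
        · subst hla
          rw [Function.update_of_ne hlb, Function.update_self, Function.update_of_ne hlb,
            Function.update_self]
          funext s
          by_cases hs : s = i
          · subst hs; simp
          · simp [hs]
        · rw [Function.update_of_ne hlb, Function.update_of_ne hla, Function.update_of_ne hlb,
            Function.update_of_ne hla]
          exact hw l hla hlb
    rw [h1]
    exact (c_rank_map _ _).trans (hρ x a b hab)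
  | insert c J hc ih =>
    intro ha hb z hz
    rw [Finset.mem_insert, not_or] at ha hb
    have hca : c ≠ a := Ne.symm ha.1
    have hcb : c ≠ b := Ne.symm hb.1
    set e := Module.finBasis (ZMod 2) F with he
    set v : Fin (Module.finrank (ZMod 2) F) → Fin n → F :=
      fun t i => algebraMap (ZMod 2) F (e.repr (z c i) t) with hv
    have hzc : z c = ∑ t, e t • v t := by
      funext i
      rw [Finset.sum_apply]
      have h1 := e.sum_repr (z c i)
      rw [← h1]
      refine Finset.sum_congr rfl fun t _ => ?_
      rw [Pi.smul_apply, hv, smul_eq_mul, Algebra.smul_def, mul_comm]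
    have hz2 : z = Function.update z c (∑ t, e t • v t) := by
      rw [← hzc, Function.update_eq_self]
    rw [hz2, c_M_sum _ a b c hca hcb z e v, Finset.card_insert_of_notMem hc]
    refine (c_rank_sum _ _ (Module.finrank (ZMod 2) F ^ J.card * ρ) fun t _ =>
      (c_rank_smul _ _).trans (ih ha.2 hb.2 _ fun j hj hja hjb => ?_)).trans (le_of_eq ?_)
    · by_cases hjc : j = c
      · subst hjc
        rw [Function.update_self]
        exact ⟨fun i => e.repr (z j i) t, rfl⟩
      · rw [Function.update_of_ne hjc]
        exact hz j (by simp [hjc, hj]) hja hjb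
    · rw [Finset.card_univ, Fintype.card_fin, pow_succ]
      ring

theorem extF_minor_pr (F : Type) [Field F] [Algebra (ZMod 2) F] [Module.Finite (ZMod 2) F]
    {ι : Type} [Fintype ι] [DecidableEq ι] {n : ℕ} (hι : 2 ≤ Fintype.card ι)
    (T : MultilinearMap (ZMod 2) (fun _ : ι => Fin n → ZMod 2) (ZMod 2)) (ρ : ℕ)
    (hρ : ∀ (z : ι → Fin n → ZMod 2) (a b : ι), a ≠ b →
      (Matrix.of fun i j : Fin n => T (Function.update (Function.update z a (Pi.single i 1)) b
        (Pi.single j 1))).rank ≤ ρ)
    (z : ι → Fin n → F) (a b : ι) (hab : a ≠ b)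
    (p q : Fin (Module.finrank (ZMod 2) F ^ (Fintype.card ι - 2) * ρ + 1) → Fin n → F) :
    (Matrix.of fun i j => extF F T (Function.update (Function.update z a (p i)) b (q j))).det
      = 0 := by
  classical
  set J : Finset ι := (Finset.univ.erase a).erase b with hJ
  have hJc : J.card = Fintype.card ι - 2 := by
    rw [hJ, Finset.card_erase_of_mem (by simp [Ne.symm hab]), Finset.card_erase_of_mem (by simp),
      Finset.card_univ]
    omega
  have hrank := c_rank_M F T ρ hρ a b hab J (by simp [hJ]) (by simp [hJ]) z
    (fun j hj hja hjb => absurd (by simp [hJ, hja, hjb]) hj)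
  rw [hJc] at hrank
  set S := c_M (extF F T) a b z with hS
  have hvec : ∀ u : Fin n → F, u = ∑ l, u l • (Pi.single l (1 : F) : Fin n → F) := by
    intro u
    funext s
    rw [Finset.sum_apply, Finset.sum_eq_single s]
    · simp
    · intro i _ hi
      simp [Ne.symm hi]
    · simp
  have hfac : (Matrix.of fun i j => extF F T (Function.update (Function.update z a (p i)) b (q j))) =
      (Matrix.of p) * S * (Matrix.of q).transpose := by
    ext i j
    rw [Matrix.of_apply]
    conv_lhs => rw [hvec (q j)]
    rw [MultilinearMap.map_update_sum, Matrix.mul_apply]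
    refine Finset.sum_congr rfl fun l _ => ?_
    rw [MultilinearMap.map_update_smul, Function.update_comm hab]
    conv_lhs => rw [hvec (p i)]
    rw [MultilinearMap.map_update_sum, Matrix.mul_apply, Matrix.transpose_apply, Matrix.of_apply,
      smul_eq_mul, mul_comm]
    congr 1
    refine Finset.sum_congr rfl fun s _ => ?_
    rw [MultilinearMap.map_update_smul, Matrix.of_apply, smul_eq_mul, Function.update_comm hab.symm]
    rfl
  by_contra hdet
  have h1 := Matrix.rank_of_det_ne_zero hdet
  rw [Fintype.card_fin, hfac] at h1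
  have h2 : ((Matrix.of p) * S * (Matrix.of q).transpose).rank ≤ S.rank :=
    (Matrix.rank_mul_le_left _ _).trans (Matrix.rank_mul_le_right _ _)
  omega

end Pool.Agent.Lib_helper76.LD
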